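import Mathlib

/-!
# A balanced configuration whose dimension differs from the dimension of its dual

The configuration `C15` of type `(15_3)` consists of the Pappus configuration without one of its points
(`a₁, a₂, a₃, b₁, b₂, b₃, c₁, c₂` are the points `0, ..., 7`) and the Fano configuration without one of its
lines (`x, y, z, q₁, q₂, q₃, q₄` are the points `8, ..., 14`); the three points `x, y, z` lie on the three
lines of the Pappus configuration that have lost a point. In every realization the first eight points are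
coplanar by the Pappus configuration, so `x, y, z` are in the same plane, and `x, y, z` are the
diagonal points of the complete quadrangle `q₁ q₂ q₃ q₄`, hence not collinear, so everything is in one
plane. The dual has a realization in `ℝ ^ 3`: there the two parts are in two planes through a line.
-/

set_option autoImplicit false

namespace Pool.Agent.Results.MP_d6bd81_co.DualDimension

open Module

/-- A (combinatorial) balanced configuration `(n_k)`: `n` points and `n` lines, every point on exactly
`k` lines, every line with exactly `k` points, and two distinct points share at most one line. -/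
structure Config (n k : ℕ) where
  /-- `inc i j` means that the point `i` is incident with the line `j` -/
  inc : Fin n → Fin n → Prop
  lines_through : ∀ i, {j | inc i j}.ncard = k
  points_on : ∀ j, {i | inc i j}.ncard = k
  unique_line : ∀ i i' j j', i ≠ i' → inc i j → inc i' j → inc i j' → inc i' j' → j = j'

/-- The dual configuration: points and lines exchange their roles. -/
def Config.dual {n k : ℕ} (C : Config n k) : Config n k where
  inc i j := C.inc j i
  lines_through := C.points_on
  points_on := C.lines_through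
  unique_line := by
    intro i i' j j' hij h1 h2 h3 h4
    by_contra hjj
    exact hij (C.unique_line j j' i i' hjj h1 h3 h2 h4)

/-- A geometric realization in `ℝ ^ m`: pairwise distinct points, pairwise distinct straight lines
(one-dimensional affine subspaces), and a point lies on a line if and only if they are incident. -/
structure Realization {n k : ℕ} (C : Config n k) (m : ℕ) where
  pt : Fin n → (Fin m → ℝ)
  ln : Fin n → AffineSubspace ℝ (Fin m → ℝ)
  pt_inj : Function.Injective pt
  ln_inj : Function.Injective ln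
  ln_line : ∀ j, (ln j : Set (Fin m → ℝ)).Nonempty ∧ finrank ℝ (ln j).direction = 1
  inc_iff : ∀ i j, pt i ∈ ln j ↔ C.inc i j

/-- The dimensions of the affine hulls of the realizations of `C`, in all the spaces `ℝ ^ m`. The dimension
of `C` is the largest element of this set. -/
def dims {n k : ℕ} (C : Config n k) : Set ℕ :=
  {d | ∃ (m : ℕ) (R : Realization C m), finrank ℝ (affineSpan ℝ (Set.range R.pt)).direction = d}

/-! ### Lines in coordinates -/

theorem mem_line_iff {m : ℕ} {a b p : Fin m → ℝ} (hab : a ≠ b) :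
    p ∈ affineSpan ℝ ({a, b} : Set (Fin m → ℝ)) ↔
      ∀ k l, (p k - a k) * (b l - a l) = (p l - a l) * (b k - a k) := by
  rw [mem_affineSpan_pair_iff_exists_lineMap_eq]
  constructor
  · rintro ⟨t, rfl⟩ k l
    simp only [AffineMap.lineMap_apply, vsub_eq_sub, vadd_eq_add, Pi.add_apply, Pi.smul_apply,
      Pi.sub_apply, smul_eq_mul]
    ring
  · intro h
    have : ∃ l, b l - a l ≠ 0 := by
      by_contra hcon
      push Not at hcon
      apply hab
      ext l
      have := hcon l
      linarith
    obtain ⟨l, hl⟩ := this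
    refine ⟨(p l - a l) / (b l - a l), ?_⟩
    ext k
    simp only [AffineMap.lineMap_apply, vsub_eq_sub, vadd_eq_add, Pi.add_apply, Pi.smul_apply,
      Pi.sub_apply, smul_eq_mul]
    have := h k l
    rw [div_mul_eq_mul_div, ← this, mul_div_assoc, div_self hl]
    ring

/-- A realization from integral coordinates of the points and, for every line, two of its points. -/
noncomputable def mkReal {n k m : ℕ} (C : Config n k) (P : Fin n → Fin m → ℤ) (u v : Fin n → Fin n)
    (hP : ∀ i i', (∀ k, P i k = P i' k) → i = i')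
    (huv : ∀ j, u j ≠ v j)
    (hL : ∀ j j', (∀ i, C.inc i j ↔ C.inc i j') → j = j')
    (hinc : ∀ i j, (∀ k l, (P i k - P (u j) k) * (P (v j) l - P (u j) l) =
      (P i l - P (u j) l) * (P (v j) k - P (u j) k)) ↔ C.inc i j) : Realization C m :=
  have hne : ∀ j, (fun k => (P (u j) k : ℝ)) ≠ (fun k => (P (v j) k : ℝ)) := by
    intro j h
    apply huv j
    apply hP
    intro k
    have := congrFun h k
    exact_mod_cast this
  have key : ∀ i j, (fun k => (P i k : ℝ)) ∈
      affineSpan ℝ ({(fun k => (P (u j) k : ℝ)), (fun k => (P (v j) k : ℝ))} : Set (Fin m → ℝ)) ↔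
        C.inc i j := by
    intro i j
    rw [mem_line_iff (hne j), ← hinc]
    constructor
    · intro h k l
      exact_mod_cast h k l
    · intro h k l
      exact_mod_cast h k l
  { pt := fun i k => (P i k : ℝ)
    ln := fun j => affineSpan ℝ {(fun k => (P (u j) k : ℝ)), (fun k => (P (v j) k : ℝ))}
    pt_inj := by
      intro i i' h
      apply hP
      intro k
      have := congrFun h k
      simp only at this
      exact_mod_cast this
    ln_inj := by
      intro j j' h
      apply hL
      intro i
      rw [← key, ← key]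
      simp only at h
      rw [h]
    ln_line := by
      intro j
      refine ⟨⟨_, left_mem_affineSpan_pair ℝ _ _⟩, ?_⟩
      rw [direction_affineSpan, vectorSpan_pair_rev, finrank_span_singleton]
      rw [vsub_eq_sub, sub_ne_zero]
      exact (hne j).symm
    inc_iff := key }

/-! ### The configuration -/

/-- the points of the lines -/
def lines : Fin 15 → List (Fin 15) :=
  ![[0, 1, 2], [3, 4, 5], [1, 5, 6], [2, 4, 6], [0, 5, 7], [2, 3, 7], [6, 7, 8], [0, 4, 9],
    [1, 3, 10], [8, 11, 12], [8, 13, 14], [9, 11, 13], [9, 12, 14], [10, 11, 14], [10, 12, 13]]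

def inc15 (i j : Fin 15) : Prop := i ∈ lines j

instance (i j : Fin 15) : Decidable (inc15 i j) := by unfold inc15; infer_instance

/-- the configuration -/
def C15 : Config 15 3 where
  inc := inc15
  lines_through := by
    intro i
    rw [Set.ncard_eq_toFinset_card']
    revert i; decide +kernel
  points_on := by
    intro j
    rw [Set.ncard_eq_toFinset_card']
    revert j; decide +kernel
  unique_line := by decide +kernel

/-- coordinates of the points in a realization of `C15` in the plane -/
def P2 : Fin 15 → Fin 2 → ℤ :=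
  ![![0, 0], ![10, 12], ![-10, -12], ![8, 4], ![6, 4], ![4, 4], ![-2, -4], ![-28, -28], ![24, 20],
    ![3, 2], ![6, -4], ![21, 26], ![27, 14], ![-15, -22], ![11, 6]]

def u2 : Fin 15 → Fin 15 := ![0, 3, 1, 2, 0, 2, 6, 0, 1, 8, 8, 9, 9, 10, 10]
def v2 : Fin 15 → Fin 15 := ![1, 4, 5, 4, 5, 3, 7, 4, 3, 11, 13, 11, 12, 11, 12]

theorem P2_inj : ∀ i i', (∀ k, P2 i k = P2 i' k) → i = i' := by decide +kernel

theorem P2_inc : ∀ i j, (∀ k l, (P2 i k - P2 (u2 j) k) * (P2 (v2 j) l - P2 (u2 j) l) =
      (P2 i l - P2 (u2 j) l) * (P2 (v2 j) k - P2 (u2 j) k)) ↔ inc15 i j := by decide +kernel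

/-- the realization of `C15` in the plane -/
noncomputable def R2 : Realization C15 2 :=
  mkReal C15 P2 u2 v2 P2_inj (by decide +kernel)
    (by show ∀ j j', (∀ i, inc15 i j ↔ inc15 i j') → j = j'; decide +kernel) P2_inc

/-- coordinates of the points in a realization of the dual of `C15` in the three-dimensional space -/
def P3 : Fin 15 → Fin 3 → ℤ :=
  ![![0, 0, 0], ![16, 4, 0], ![10, -2, 0], ![-2, -5, 0], ![0, -12, 0], ![8, 20, 0], ![2, -4, 0],
    ![0, -4, 0], ![20, -4, 0], ![5, -4, -1], ![-4, -4, 2], ![-4, -4, -4], ![2, -4, 2],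
    ![14, -4, 2], ![-4, -4, 8]]

def u3 : Fin 15 → Fin 15 := ![0, 0, 0, 1, 1, 1, 2, 4, 6, 7, 8, 9, 9, 10, 10]
def v3 : Fin 15 → Fin 15 := ![4, 2, 3, 5, 3, 2, 3, 5, 9, 11, 13, 11, 12, 11, 12]

theorem P3_inj : ∀ i i', (∀ k, P3 i k = P3 i' k) → i = i' := by decide +kernel

theorem P3_inc : ∀ i j, (∀ k l, (P3 i k - P3 (u3 j) k) * (P3 (v3 j) l - P3 (u3 j) l) =
      (P3 i l - P3 (u3 j) l) * (P3 (v3 j) k - P3 (u3 j) k)) ↔ inc15 j i := by decide +kernel

/-- the realization of the dual of `C15` in the three-dimensional space -/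
noncomputable def R3 : Realization C15.dual 3 :=
  mkReal C15.dual P3 u3 v3 P3_inj (by decide +kernel)
    (by show ∀ j j', (∀ i, inc15 j i ↔ inc15 j' i) → j = j'; decide +kernel) P3_inc

theorem dim_R2 : finrank ℝ (affineSpan ℝ (Set.range R2.pt)).direction = 2 := by
  have h : (affineSpan ℝ (Set.range R2.pt)).direction = ⊤ := by
    rw [eq_top_iff]
    intro v _
    rw [direction_affineSpan]
    have hm : ∀ i j, R2.pt i -ᵥ R2.pt j ∈ vectorSpan ℝ (Set.range R2.pt) := fun i j =>
      vsub_mem_vectorSpan ℝ (Set.mem_range_self i) (Set.mem_range_self j)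
    have e : v = ((v 0 - 2 * v 1) / (-14)) • (R2.pt 1 -ᵥ R2.pt 0) +
        ((5 * v 1 - 6 * v 0) / (-28)) • (R2.pt 3 -ᵥ R2.pt 0) := by
      ext k
      fin_cases k
      · simp [R2, mkReal, P2]; ring
      · simp [R2, mkReal, P2]; ring
    rw [e]
    exact Submodule.add_mem _ (Submodule.smul_mem _ _ (hm 1 0)) (Submodule.smul_mem _ _ (hm 3 0))
  rw [h, finrank_top, finrank_fin_fun]

theorem dim_R3 : finrank ℝ (affineSpan ℝ (Set.range R3.pt)).direction = 3 := by
  have h : (affineSpan ℝ (Set.range R3.pt)).direction = ⊤ := by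
    rw [eq_top_iff]
    intro v _
    rw [direction_affineSpan]
    have hm : ∀ i j, R3.pt i -ᵥ R3.pt j ∈ vectorSpan ℝ (Set.range R3.pt) := fun i j =>
      vsub_mem_vectorSpan ℝ (Set.mem_range_self i) (Set.mem_range_self j)
    have e : v = (v 0 / 20) • (R3.pt 8 -ᵥ R3.pt 7) + (- v 1 / 4) • (R3.pt 7 -ᵥ R3.pt 0) +
        (v 2 / 6) • (R3.pt 10 -ᵥ R3.pt 11) := by
      ext k
      fin_cases k
      · simp [R3, mkReal, P3]
      · simp [R3, mkReal, P3]
      · simp [R3, mkReal, P3]; ring
    rw [e]
    exact Submodule.add_mem _ (Submodule.add_mem _ (Submodule.smul_mem _ _ (hm 8 7))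
      (Submodule.smul_mem _ _ (hm 7 0))) (Submodule.smul_mem _ _ (hm 10 11))
  rw [h, finrank_top, finrank_fin_fun]

/-! ### All the realizations of `C15` are planar -/

section upper

variable {m : ℕ} (R : Realization C15 m)

theorem line_eq {p q j : Fin 15} (hpq : p ≠ q) (hp : inc15 p j) (hq : inc15 q j) :
    affineSpan ℝ ({R.pt p, R.pt q} : Set (Fin m → ℝ)) = R.ln j := by
  have h1 : R.pt p ∈ R.ln j := (R.inc_iff p j).mpr hp
  have h2 : R.pt q ∈ R.ln j := (R.inc_iff q j).mpr hq
  have hle : affineSpan ℝ ({R.pt p, R.pt q} : Set (Fin m → ℝ)) ≤ R.ln j := by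
    rw [affineSpan_le]
    intro z hz
    rcases hz with rfl | hz
    · exact h1
    · rw [Set.mem_singleton_iff] at hz; rw [hz]; exact h2
  apply AffineSubspace.eq_of_direction_eq_of_nonempty_of_le _ ⟨_, left_mem_affineSpan_pair ℝ _ _⟩ hle
  apply Submodule.eq_of_le_of_finrank_eq (AffineSubspace.direction_le hle)
  rw [(R.ln_line j).2, direction_affineSpan, vectorSpan_pair_rev, finrank_span_singleton]
  rw [vsub_eq_sub, sub_ne_zero]
  exact fun h => hpq (R.pt_inj h.symm)

/-- the third point of a line is in every affine subspace containing two of its points -/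
theorem closure {A : AffineSubspace ℝ (Fin m → ℝ)} (p q r j : Fin 15) (hpq : p ≠ q)
    (hj : inc15 p j ∧ inc15 q j ∧ inc15 r j) (hp : R.pt p ∈ A) (hq : R.pt q ∈ A) : R.pt r ∈ A := by
  have h1 : R.pt r ∈ R.ln j := (R.inc_iff r j).mpr hj.2.2
  rw [← line_eq R hpq hj.1 hj.2.1] at h1
  have hle : affineSpan ℝ ({R.pt p, R.pt q} : Set (Fin m → ℝ)) ≤ A := by
    rw [affineSpan_le]
    intro z hz
    rcases hz with rfl | hz
    · exact hp
    · rw [Set.mem_singleton_iff] at hz; rw [hz]; exact hq
  exact hle h1

/-- the third point of a line, in coordinates -/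
theorem third (p q r j : Fin 15) (hpq : p ≠ q) (hj : inc15 p j ∧ inc15 q j ∧ inc15 r j) :
    ∃ t : ℝ, R.pt r = R.pt p + t • (R.pt q - R.pt p) := by
  have h1 : R.pt r ∈ R.ln j := (R.inc_iff r j).mpr hj.2.2
  rw [← line_eq R hpq hj.1 hj.2.1, mem_affineSpan_pair_iff_exists_lineMap_eq] at h1
  obtain ⟨t, ht⟩ := h1
  refine ⟨t, ?_⟩
  rw [← ht, AffineMap.lineMap_apply, vsub_eq_sub, vadd_eq_add, add_comm]

/-- the points `q₁, q₂, q₃` are not collinear -/
theorem indep (c d : ℝ) (h : c • (R.pt 12 - R.pt 11) + d • (R.pt 13 - R.pt 11) = 0) :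
    c = 0 ∧ d = 0 := by
  have hd : d = 0 := by
    by_contra hd
    have h1 : R.pt 13 = AffineMap.lineMap (R.pt 11) (R.pt 12) (-(c / d)) := by
      rw [AffineMap.lineMap_apply, vsub_eq_sub, vadd_eq_add]
      have h2 : d • (R.pt 13 - R.pt 11) = -(c • (R.pt 12 - R.pt 11)) := by
        rw [eq_neg_iff_add_eq_zero, add_comm]; exact h
      have h3 : R.pt 13 - R.pt 11 = (-(c / d)) • (R.pt 12 - R.pt 11) := by
        have : R.pt 13 - R.pt 11 = d⁻¹ • (d • (R.pt 13 - R.pt 11)) := by
          rw [smul_smul, inv_mul_cancel₀ hd, one_smul]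
        rw [this, h2, smul_neg, smul_smul, neg_smul]
        congr 2
        field_simp
      rw [← h3]; abel
    have h4 : R.pt 13 ∈ R.ln 9 := by
      rw [← line_eq R (p := 11) (q := 12) (j := 9) (by decide) (by decide) (by decide),
        mem_affineSpan_pair_iff_exists_lineMap_eq]
      exact ⟨_, h1.symm⟩
    have h5 : inc15 13 9 := (R.inc_iff 13 9).mp h4
    revert h5
    decide
  subst hd
  refine ⟨?_, rfl⟩
  rw [zero_smul, add_zero, smul_eq_zero] at h
  rcases h with h | h
  · exact h
  · exfalso
    have := R.pt_inj (sub_eq_zero.mp h)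
    revert this
    decide

/-- the point `q₁` is in the plane of the diagonal points `x, y, z` -/
theorem q1_mem {A : AffineSubspace ℝ (Fin m → ℝ)} (hx : R.pt 8 ∈ A) (hy : R.pt 9 ∈ A)
    (hz : R.pt 10 ∈ A) : R.pt 11 ∈ A := by
  obtain ⟨α, ha⟩ := third R 11 12 8 9 (by decide) (by decide)
  obtain ⟨β, hb⟩ := third R 11 13 9 11 (by decide) (by decide)
  obtain ⟨t, ht⟩ := third R 8 13 14 10 (by decide) (by decide)
  obtain ⟨s, hs⟩ := third R 9 12 14 12 (by decide) (by decide)
  obtain ⟨g, hg⟩ := third R 11 14 10 13 (by decide) (by decide)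
  obtain ⟨δ, hd⟩ := third R 12 13 10 14 (by decide) (by decide)
  -- the relations between the scalars
  have e1 : (α * (1 - t) - s) • (R.pt 12 - R.pt 11) + (t - β * (1 - s)) • (R.pt 13 - R.pt 11) = 0 := by
    have h := ht.symm.trans hs
    rw [ha, hb] at h
    ext k
    have hk := congrFun h k
    simp only [Pi.add_apply, Pi.smul_apply, Pi.sub_apply, smul_eq_mul, Pi.zero_apply] at hk ⊢
    linear_combination hk
  obtain ⟨f1, f2⟩ := indep R _ _ e1
  have e2 : (g * s - (1 - δ)) • (R.pt 12 - R.pt 11) + (g * t - δ) • (R.pt 13 - R.pt 11) = 0 := by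
    have h := hg.symm.trans hd
    ext k
    have hk := congrFun h k
    have h1 := congrFun ht k
    have h2 := congrFun ha k
    simp only [Pi.add_apply, Pi.smul_apply, Pi.sub_apply, smul_eq_mul, Pi.zero_apply] at hk h1 h2 ⊢
    rw [h1, h2] at hk
    linear_combination hk - g * (R.pt 12 k - R.pt 11 k) * f1
  obtain ⟨f3, f4⟩ := indep R _ _ e2
  have hg1 : g ≠ 1 := by
    rintro rfl
    have : R.pt 10 = R.pt 14 := by
      rw [hg, one_smul]; abel
    have := R.pt_inj this
    revert this
    decide
  have hg2 : 2 * (1 - g) ≠ 0 := by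
    intro h
    apply hg1
    linarith
  -- `q₁` as an affine combination
  have key : R.pt 11 = ((-(g * (1 - t)) / (2 * (1 - g))) • (R.pt 8 - R.pt 10) +
        (-(g * (1 - s)) / (2 * (1 - g))) • (R.pt 9 - R.pt 10)) + R.pt 10 := by
    ext k
    have h1 := congrFun hg k
    have h2 := congrFun ha k
    have h3 := congrFun hb k
    have h4 := congrFun ht k
    simp only [Pi.add_apply, Pi.smul_apply, Pi.sub_apply, smul_eq_mul] at h1 h2 h3 h4 ⊢
    have h5 : g * (s + t) = 1 := by linarith
    have h6 : 2 * (1 - g) * R.pt 11 k = R.pt 10 k - g * (1 - t) * R.pt 8 k -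
        g * (1 - s) * R.pt 9 k := by
      rw [h1, h4, h3, h2]
      linear_combination (-(R.pt 11 k)) * h5 - g * (R.pt 13 k - R.pt 11 k) * f2
    have h8 : R.pt 11 k = (2 * (1 - g) * R.pt 11 k) / (2 * (1 - g)) := by
      rw [mul_div_cancel_left₀ _ hg2]
    rw [h8, h6]
    field_simp
    linear_combination (R.pt 10 k) * h5
  rw [key]
  apply AffineSubspace.vadd_mem_of_mem_direction _ hz
  apply Submodule.add_mem
  · exact Submodule.smul_mem _ _ (AffineSubspace.vsub_mem_direction hx hz)
  · exact Submodule.smul_mem _ _ (AffineSubspace.vsub_mem_direction hy hz)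

theorem all_mem (i : Fin 15) :
    R.pt i ∈ affineSpan ℝ (Set.range ![R.pt 1, R.pt 2, R.pt 4]) := by
  set A := affineSpan ℝ (Set.range ![R.pt 1, R.pt 2, R.pt 4]) with hA
  have m1 : R.pt 1 ∈ A := subset_affineSpan ℝ _ ⟨0, rfl⟩
  have m2 : R.pt 2 ∈ A := subset_affineSpan ℝ _ ⟨1, rfl⟩
  have m4 : R.pt 4 ∈ A := subset_affineSpan ℝ _ ⟨2, rfl⟩
  have m6 := closure R 2 4 6 3 (by decide) (by decide) m2 m4
  have m5 := closure R 1 6 5 2 (by decide) (by decide) m1 m6
  have m3 := closure R 4 5 3 1 (by decide) (by decide) m4 m5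
  have m0 := closure R 1 2 0 0 (by decide) (by decide) m1 m2
  have m7 := closure R 0 5 7 4 (by decide) (by decide) m0 m5
  have m8 := closure R 6 7 8 6 (by decide) (by decide) m6 m7
  have m9 := closure R 0 4 9 7 (by decide) (by decide) m0 m4
  have m10 := closure R 1 3 10 8 (by decide) (by decide) m1 m3
  have m11 := q1_mem R m8 m9 m10
  have m12 := closure R 8 11 12 9 (by decide) (by decide) m8 m11
  have m13 := closure R 9 11 13 11 (by decide) (by decide) m9 m11
  have m14 := closure R 10 11 14 13 (by decide) (by decide) m10 m11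
  fin_cases i
  · exact m0
  · exact m1
  · exact m2
  · exact m3
  · exact m4
  · exact m5
  · exact m6
  · exact m7
  · exact m8
  · exact m9
  · exact m10
  · exact m11
  · exact m12
  · exact m13
  · exact m14

theorem dim_le_two : finrank ℝ (affineSpan ℝ (Set.range R.pt)).direction ≤ 2 := by
  have hle : affineSpan ℝ (Set.range R.pt) ≤ affineSpan ℝ (Set.range ![R.pt 1, R.pt 2, R.pt 4]) := by
    rw [affineSpan_le]
    rintro z ⟨i, rfl⟩
    exact all_mem R i
  have h1 := Submodule.finrank_mono (AffineSubspace.direction_le hle)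
  refine h1.trans ?_
  rw [direction_affineSpan]
  exact finrank_vectorSpan_range_le ℝ _ (by simp)

end upper

theorem dims_bounded {n k : ℕ} (hn : 0 < n) (C : Config n k) : ∀ d ∈ dims C, d ≤ n - 1 := by
  rintro d ⟨m, R, rfl⟩
  rw [direction_affineSpan]
  exact finrank_vectorSpan_range_le ℝ _ (by rw [Fintype.card_fin]; omega)

/-- There is a balanced configuration `C` (of type `(15_3)`) such that `C` and its dual have geometric
realizations (in the plane and in the three-dimensional space, respectively), `C` has dimension `2` and its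
dual has a dimension `d ≥ 3`. -/
theorem result : ∃ (n k : ℕ) (C : Config n k), 2 ≤ k ∧
    (∃ m, Nonempty (Realization C m)) ∧ (∃ m, Nonempty (Realization C.dual m)) ∧
    ∃ d d' : ℕ, IsGreatest (dims C) d ∧ IsGreatest (dims C.dual) d' ∧ d ≠ d' := by
  refine ⟨15, 3, C15, by norm_num, ⟨2, ⟨R2⟩⟩, ⟨3, ⟨R3⟩⟩, 2, sSup (dims C15.dual), ⟨?_, ?_⟩, ⟨?_, ?_⟩, ?_⟩
  · exact ⟨2, R2, dim_R2⟩
  · rintro d ⟨m, R, rfl⟩
    exact dim_le_two R
  · exact Nat.sSup_mem ⟨3, 3, R3, dim_R3⟩ ⟨14, dims_bounded (by norm_num) _⟩
  · intro d hd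
    exact le_csSup ⟨14, dims_bounded (by norm_num) _⟩ hd
  · have : 3 ≤ sSup (dims C15.dual) :=
      le_csSup ⟨14, dims_bounded (by norm_num) _⟩ ⟨3, R3, dim_R3⟩
    omega

end Pool.Agent.Results.MP_d6bd81_co.DualDimension
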